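import Mathlib

/-!
# HB: definitions of the hereditarily indecomposable space with a `C²` bump (MP_404f39)

* `Par`: parameters `m c = 2^(M c)`, `n c = 2^(N c)`, `c = 0, 1, 2, ...` (codes).
* `KK`: the norming set of a mixed Tsirelson norm `TT` with an `ℓ₂`-sum over the codes.
* `Gam`, `Gamc c`: the positive parts of the dual balls of `TT` and of its `c`-part `Tc c`.
* `LG Γ x = (sup_{γ ∈ Γ} ∑ |x_i|³ √γ_i)^{1/3}`; `Lf = LG Gam`, `Lc c = LG (Gamc c)`.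
* special sequences: nodes `σ : List ℕ` (most recent element first), `H n` the polynomial functional
  number `n`, `code`, `mu` (marker), `Val` (valid nodes of operation `j`), `VV`, `S3` (cube of the
  special norm), `nrm i0 τ` the boundary norm at `τ` with the operations `j ≥ i0`.
* `IN W x = inf_{F polynomial, F(0)=x} sup_t W t (F(zz t))`.
-/

open Finset Polynomial

noncomputable section

namespace Pool.Agent.HB

/-- Finitely supported real / complex sequences. -/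
abbrev RV := ℕ →₀ ℝ
abbrev CV := ℕ →₀ ℂ
/-- Polynomials with values in `CV`. -/
abbrev Pol := ℕ →₀ ℂ[X]

/-- The parameters of the construction. -/
structure Par where
  M : ℕ → ℕ
  N : ℕ → ℕ
  hM0 : M 0 = 100
  hN0 : N 0 = 100
  hM : ∀ c, M (c + 1) = 2 ^ (20 * N c)
  hN : ∀ c, N (c + 1) = 4 * N c * M (c + 1)

def Par.m (p : Par) (c : ℕ) : ℝ := 2 ^ (p.M c)
def Par.n (p : Par) (c : ℕ) : ℕ := 2 ^ (p.N c)

/-- Pairings. -/
def dot (γ y : RV) : ℝ := γ.sum fun i a => a * y i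
def pr (g x : CV) : ℂ := g.sum fun i a => a * x i

/-- Successive vectors. -/
def Lt {α β : Type} [Zero α] [Zero β] (x : ℕ →₀ α) (y : ℕ →₀ β) : Prop :=
  ∀ i ∈ x.support, ∀ j ∈ y.support, i < j

open Classical in
/-- Restriction of a vector to a set of coordinates. -/
def res {α : Type} [Zero α] (E : Set ℕ) (x : ℕ →₀ α) : ℕ →₀ α := x.filter (· ∈ E)

/-- The norming set of the mixed Tsirelson norm. -/
inductive KK (p : Par) : RV → Prop
  | zero : KK p 0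
  | single (i : ℕ) : KK p (Finsupp.single i 1)
  | step (C : Finset ℕ) (b : ℕ → ℝ) (g : ℕ → ℕ → RV) (hb : ∀ c, 0 ≤ b c)
      (hb2 : ∑ c ∈ C, b c ^ 2 ≤ 1) (hs : ∀ c i j, i < j → Lt (g c i) (g c j))
      (hg : ∀ c i, KK p (g c i)) :
      KK p (∑ c ∈ C, (b c / p.m c) • ∑ i ∈ range (p.n c), g c i)

/-- The functionals of the `c`-part: `(1/m_c) (g_0 + ... + g_{n_c - 1})`, `g_i` successive. -/
def KKc (p : Par) (c : ℕ) : Set RV :=
  {γ | ∃ g : ℕ → RV, (∀ i j, i < j → Lt (g i) (g j)) ∧ (∀ i, KK p (g i)) ∧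
    γ = (1 / p.m c) • ∑ i ∈ range (p.n c), g i}

/-- Supremum of a set of functionals. -/
def supd (K : Set RV) (y : RV) : ℝ := sSup ((fun γ => dot γ y) '' K)

def TT (p : Par) (y : RV) : ℝ := supd {γ | KK p γ} y
def Tc (p : Par) (c : ℕ) (y : RV) : ℝ := supd (KKc p c) y

def Gam (p : Par) : Set RV := {γ | 0 ≤ γ ∧ ∀ y : RV, 0 ≤ y → dot γ y ≤ TT p y}
def Gamc (p : Par) (c : ℕ) : Set RV := {γ | 0 ≤ γ ∧ ∀ y : RV, 0 ≤ y → dot γ y ≤ Tc p c y}

def Phi (γ : RV) (x : CV) : ℝ := ∑ i ∈ x.support, ‖x i‖ ^ 3 * √(γ i)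

/-- `LG Γ x = (sup_{γ ∈ Γ} ∑ |x_i|³ √γ_i)^{1/3}`. -/
def LG (Γ : Set RV) (x : CV) : ℝ := (sSup ((fun γ => Phi γ x) '' Γ)) ^ ((1 : ℝ) / 3)

abbrev Lf (p : Par) (x : CV) : ℝ := LG (Gam p) x
abbrev Lc (p : Par) (c : ℕ) (x : CV) : ℝ := LG (Gamc p c) x

/-- The sets `Γ` for which `LG Γ` is a 2-smooth lattice norm. -/
structure GoodSet (Γ : Set RV) : Prop where
  zero : (0 : RV) ∈ Γ
  nn : ∀ γ ∈ Γ, 0 ≤ γ
  le_one : ∀ γ ∈ Γ, ∀ i, γ i ≤ 1
  conv : Convex ℝ Γ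
  res : ∀ γ ∈ Γ, ∀ E : Set ℕ, HB.res E γ ∈ Γ

/-- Evaluation of a polynomial at `τ`. -/
def ev (τ : ℂ) (F : Pol) : CV := F.mapRange (fun q => q.eval τ) (by simp)

/-- length code of the operation `j` (even), tree codes of the operation `j` (odd). -/
def lc (j : ℕ) : ℕ := 2 * j + 2
def code (j : ℕ) (σ : List ℕ) : ℕ := 2 * (j + Encodable.encode σ) + 3

def top {α : Type} [Zero α] (x : ℕ →₀ α) : ℕ := x.support.sup id

/-- marker of a node -/
def mu (H : ℕ → Pol) (j : ℕ) : List ℕ → ℕ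
  | [] => j
  | n :: σ => mu H j σ + n + top (H n) + 1

/-- the distance of the arc `j` to the point `1` of the circle -/
def dd (p : Par) (j : ℕ) : ℝ := (1 / 2) ^ (10 * p.N (2 * j + 1))

def Arc (p : Par) (j : ℕ) (τ : ℂ) : Prop :=
  ‖τ‖ = 1 ∧ dd p j / 2 ≤ ‖1 - τ‖ ∧ ‖1 - τ‖ ≤ 2 * dd p j

/-- tent: `0` off `[1/2, 2]`, `1` on `[1, 3/2]` -/
def chi (s : ℝ) : ℝ := max 0 (min 1 (min (2 * s - 1) (4 - 2 * s)))
def psi (p : Par) (j : ℕ) (τ : ℂ) : ℝ := chi (‖1 - τ‖ / dd p j)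

/-- Valid nodes of the operation `j`. -/
def Val (p : Par) (H : ℕ → Pol) (j : ℕ) : List ℕ → Prop
  | [] => True
  | n :: σ => Val p H j σ ∧ σ.length + 1 ≤ p.n (lc j) ∧ (∀ i ∈ (H n).support, mu H j σ ≤ i) ∧
      ∀ τ, Arc p j τ → ∀ x : CV, ‖pr (ev τ (H n)) x‖ ≤ Lc p (code j σ) x

/-- Sum of the cubes of the pair functionals of a node of even length. -/
def PE (H : ℕ → Pol) (τ : ℂ) (x : CV) : List ℕ → ℝ
  | n :: m :: σ => ‖pr (ev τ (H n)) x + pr (ev τ (H m)) x‖ ^ 3 + PE H τ x σ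
  | _ => 0

/-- Value of a node. -/
def VV (p : Par) (H : ℕ → Pol) (j : ℕ) (τ : ℂ) (σ : List ℕ) (x : CV) : ℝ :=
  if Even σ.length then
    PE H τ x σ + (Lc p (code j σ) (res (Set.Ici (mu H j σ)) x)) ^ 3
  else
    PE H τ x σ.tail +
      (‖pr (ev τ (H σ.headI)) x‖ + Lc p (code j σ) (res (Set.Ici (mu H j σ)) x)) ^ 3

/-- Cube of the special norm of the operation `j` at `τ`. -/
def S3 (p : Par) (H : ℕ → Pol) (j : ℕ) (τ : ℂ) (x : CV) : ℝ :=
  sSup {r | ∃ (σ : List ℕ) (E : Set ℕ), Val p H j σ ∧ E.OrdConnected ∧ r = VV p H j τ σ (res E x)}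

def nrm3 (p : Par) (H : ℕ → Pol) (i0 : ℕ) (τ : ℂ) (x : CV) : ℝ :=
  Lf p x ^ 3 + ∑' j : ℕ, if i0 ≤ j then psi p j τ * S3 p H j τ x else 0

def nrm (p : Par) (H : ℕ → Pol) (i0 : ℕ) (τ : ℂ) (x : CV) : ℝ :=
  (nrm3 p H i0 τ x) ^ ((1 : ℝ) / 3)

/-- The circle group, with its normalized Haar measure `haar`, and its embedding in `ℂ`. -/
abbrev TC := UnitAddCircle
abbrev haar : MeasureTheory.Measure TC := AddCircle.haarAddCircle
def zz (t : TC) : ℂ := (AddCircle.toCircle t : ℂ)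

/-- Continuous curves with values in a finite dimensional subspace. -/
def IsCur (F : TC → CV) : Prop := (∃ n, ∀ t, ∀ i, n ≤ i → F t i = 0) ∧ ∀ i, Continuous fun t => F t i

/-- Families of norms on the circle. -/
structure Fam (W : TC → CV → ℝ) : Prop where
  nn : ∀ t x, 0 ≤ W t x
  smul : ∀ t (a : ℂ) x, W t (a • x) = ‖a‖ * W t x
  add : ∀ t x y, W t (x + y) ≤ W t x + W t y
  coord : ∀ t x i, ‖x i‖ ≤ W t x
  res : ∀ t x (E : Set ℕ), E.OrdConnected → W t (HB.res E x) ≤ W t x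
  cont : ∀ F, IsCur F → Continuous fun t => W t (F t)

/-- The interpolation norm. -/
def IN (W : TC → CV → ℝ) (x : CV) : ℝ :=
  sInf {A | 0 ≤ A ∧ ∃ F : Pol, ev 0 F = x ∧ ∀ t, W t (ev (zz t) F) ≤ A}

/-- The boundary norms of the space. -/
def WW (p : Par) (H : ℕ → Pol) (i0 : ℕ) (t : TC) (x : CV) : ℝ := nrm p H i0 (zz t) x

/-- `H` is a dense enumeration of the polynomials. -/
def DenseEnum (H : ℕ → Pol) : Prop :=
  ∀ (G : Pol) (ε : ℝ), 0 < ε → ∃ n, (H n).support ⊆ G.support ∧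
    ∀ τ : ℂ, ‖τ‖ ≤ 1 → ∀ i, ‖ev τ (H n) i - ev τ G i‖ ≤ ε

end Pool.Agent.HB
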